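import Pool.Agent.helper65.GD.SpecD
import Pool.Agent.helper65.GD.STS

set_option autoImplicit false

/-! Row gdm:RPK (helper98): coefficients of the representation. -/

namespace Pool.Agent.GD

open Finset Metric Filter Topology

/-- The coefficients of `G` and the measure `μ`. -/
theorem RPK_G (hCO1 : CO1_stmt) (hCO2 : CO2_stmt) (hCO3 : CO3_stmt) (hCO4 : CO4_stmt)
    (hAPX : APX_stmt) (p : ℕ) (hp : 1 ≤ p) (G : ℂ → ℂ) (hGd : DifferentiableOn ℂ G (ball 0 1))
    (hG0 : G 0 = 1) (hGne : ∀ z ∈ ball (0 : ℂ) 1, G z ≠ 0)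
    (hPre : ∀ z ∈ ball (0 : ℂ) 1, 0 ≤ (1 + z * deriv G z / (p * G z)).re) :
    ∃ μ : ℕ → ℂ, Rec (2 * p) μ (N2b689f5b.coeff G) ∧ Approx μ := by
  have hpc : (p : ℂ) ≠ 0 := by
    have : p ≠ 0 := by omega
    exact_mod_cast this
  set P : ℂ → ℂ := fun z => 1 + z * deriv G z / (p * G z) with hP
  have hPd : DifferentiableOn ℂ P (ball 0 1) := by
    have h1 : DifferentiableOn ℂ (deriv G) (ball 0 1) := hGd.deriv isOpen_ball
    have h2 : DifferentiableOn ℂ (fun z : ℂ => z * deriv G z) (ball 0 1) := differentiableOn_id.mul h1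
    have h3 : DifferentiableOn ℂ (fun z : ℂ => (p : ℂ) * G z) (ball 0 1) := hGd.const_mul _
    have h4 : DifferentiableOn ℂ (fun z : ℂ => z * deriv G z / ((p : ℂ) * G z)) (ball 0 1) :=
      h2.div h3 (fun z hz => mul_ne_zero hpc (hGne z hz))
    exact h4.const_add 1
  set Gs : ℕ → ℂ := N2b689f5b.coeff G with hGs
  set Ps : ℕ → ℂ := N2b689f5b.coeff P with hPs
  have hGser : Ser Gs G := hCO1 G hGd
  have hPser : Ser Ps P := hCO1 P hPd
  have hPs0 : Ps 0 = 1 := by
    simp [hPs, N2b689f5b.coeff, hP]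
  have hGs0 : Gs 0 = 1 := by
    simp [hGs, N2b689f5b.coeff, hG0]
  have hG' := (hCO4 G Gs hGser).2
  have hprod : Ser (fun n => ∑ m ∈ range (n + 1), Gs m * Ps (n - m)) (fun z => G z * P z) :=
    hCO3 G P Gs Ps hGser hPser
  have hsum : Ser (fun n => Gs n + (n : ℂ) * Gs n / p) (fun z => G z * P z) := by
    intro z hz
    have h1 := hGser z hz
    have h2 := (hG' z hz).div_const (p : ℂ)
    have h3 := h1.add h2
    have h4 : G z * P z = G z + z * deriv G z / p := by
      simp only [hP]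
      have := hGne z hz
      field_simp
    show HasSum (fun n : ℕ => (Gs n + (n : ℂ) * Gs n / p) * z ^ n) (G z * P z)
    rw [h4]
    have h5 : (fun n : ℕ => (Gs n + (n : ℂ) * Gs n / p) * z ^ n) =
        fun n : ℕ => Gs n * z ^ n + (n : ℂ) * Gs n * z ^ n / p := by
      funext n
      ring
    rw [h5]
    exact h3
  have heq := hCO2 _ _ _ hprod hsum
  have hrec : ∀ k : ℕ, (k : ℂ) * Gs k = p * ∑ m ∈ range k, Ps (k - m) * Gs m := by
    intro k
    have h1 : ∑ m ∈ range (k + 1), Gs m * Ps (k - m) = Gs k + (k : ℂ) * Gs k / p := congrFun heq k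
    rw [sum_range_succ, Nat.sub_self, hPs0] at h1
    have h2 : ∑ m ∈ range k, Gs m * Ps (k - m) = (k : ℂ) * Gs k / p := by
      linear_combination h1
    have h3 : ∑ m ∈ range k, Ps (k - m) * Gs m = ∑ m ∈ range k, Gs m * Ps (k - m) :=
      sum_congr rfl (fun m _ => mul_comm _ _)
    rw [h3, h2]
    field_simp
  refine ⟨fun m => if m = 0 then 1 else Ps m / 2, ⟨hGs0, ?_⟩, hAPX P _ (by simp) ?_ hPre⟩
  · intro k
    rw [hrec k]
    have h1 : ∑ m ∈ range k, (if k - m = 0 then (1 : ℂ) else Ps (k - m) / 2) * Gs m =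
        ∑ m ∈ range k, (1 / 2 : ℂ) * (Ps (k - m) * Gs m) := by
      refine sum_congr rfl (fun m hm => ?_)
      have : k - m ≠ 0 := by
        have := mem_range.mp hm
        omega
      rw [if_neg this]
      ring
    rw [h1, ← mul_sum]
    ring
  · have h1 : dbl (fun m => if m = 0 then 1 else Ps m / 2) = Ps := by
      funext n
      unfold dbl
      by_cases hn : n = 0
      · subst hn
        simp [hPs0]
      · simp only [hn, if_false]
        ring
    rw [h1]
    exact hPser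

theorem RPK (hCO1 : CO1_stmt) (hCO2 : CO2_stmt) (hCO3 : CO3_stmt) (hCO4 : CO4_stmt)
    (hNPO : NPO_stmt) (hAPX : APX_stmt) (hRPA : RPA_stmt) : RPK_stmt := by
  intro f F p R a b₀ g U hC
  obtain ⟨l₀, c, G, Q, hGd, hG0, hGne, hPre, hQd, hQ0, hQre, hf⟩ := hRPA f F p R a b₀ g U hC
  obtain ⟨b, hb, hbz⟩ := hNPO p b₀ l₀
  have hp : 1 ≤ p := hC.star.one_le
  obtain ⟨μ, hμ1, hμ2⟩ := RPK_G hCO1 hCO2 hCO3 hCO4 hAPX p hp G hGd hG0 hGne hPre
  set Gs : ℕ → ℂ := N2b689f5b.coeff G with hGs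
  set Qs : ℕ → ℂ := N2b689f5b.coeff Q with hQs
  have hGser : Ser Gs G := hCO1 G hGd
  have hQser : Ser Qs Q := hCO1 Q hQd
  set τ : ℝ := (Q 0).im with hτ
  have hQs0 : Qs 0 = 1 + τ * Complex.I := by
    have h1 : Qs 0 = Q 0 := by
      simp [hQs, N2b689f5b.coeff]
    rw [h1, ← Complex.re_add_im (Q 0), hQ0]
    simp [hτ]
  set κ : ℕ → ℂ := fun m => if m = 0 then 1 else Qs m / 2 with hκ
  have hκser : Ser (dbl κ) (fun z => Q z - τ * Complex.I) := by
    intro z hz
    have h1 := hQser z hz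
    have h2 : HasSum (fun n : ℕ => if n = 0 then (τ : ℂ) * Complex.I else 0) ((τ : ℂ) * Complex.I) :=
      hasSum_ite_eq 0 _
    have h3 := h1.sub h2
    refine h3.congr_fun ?_
    intro n
    show dbl κ n * z ^ n = Qs n * z ^ n - if n = 0 then (τ : ℂ) * Complex.I else 0
    unfold dbl
    rw [hκ]
    by_cases hn : n = 0
    · subst hn
      simp [hQs0]
    · simp only [hn, if_false]
      ring
  have hκ2 : Approx κ := by
    refine hAPX _ κ (by simp [hκ]) hκser ?_
    intro z hz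
    have h1 := hQre z hz
    simp only [Complex.sub_re, Complex.mul_re, Complex.ofReal_re, Complex.I_re, mul_zero,
      Complex.ofReal_im, Complex.I_im, zero_mul, sub_zero]
    linarith
  refine ⟨c, b, μ, κ, Gs, τ, hb, STS_pos p b₀ l₀ b hbz, hμ1, hμ2, hκ2, ?_⟩
  have hbser : Ser b (fun z => z * ∏ l ∈ univ.erase l₀, ((z - b₀ l) * (1 - (starRingEnd ℂ) (b₀ l) * z))) := by
    intro z _
    show HasSum (fun n : ℕ => b n * z ^ n)
      (z * ∏ l ∈ univ.erase l₀, ((z - b₀ l) * (1 - (starRingEnd ℂ) (b₀ l) * z)))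
    rw [hbz z]
    refine hasSum_sum_of_ne_finset_zero (fun q hq => ?_)
    have : 2 * p ≤ q := by
      by_contra h
      exact hq (mem_range.mpr (by omega))
    rw [hb.2.1 q this, zero_mul]
  have h1 := hCO3 _ _ _ _ hbser hQser
  have hE : (fun n => ∑ m ∈ range (n + 1), b m * Qs (n - m)) = EE τ κ b := by
    funext n
    unfold EE
    rw [sum_range_succ, Nat.sub_self, hQs0, mul_sum]
    have h2 : ∑ m ∈ range n, b m * Qs (n - m) = ∑ i ∈ range n, 2 * (κ (n - i) * b i) := by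
      refine sum_congr rfl fun m hm => ?_
      have h3 : n - m ≠ 0 := by
        have := mem_range.mp hm
        omega
      rw [hκ]
      simp only [h3, if_false]
      ring
    rw [h2]
    ring
  rw [hE] at h1
  have h2 := hCO3 _ _ _ _ h1 hGser
  have hfd : DifferentiableOn ℂ f (ball 0 1) :=
    hC.analytic.mono (ball_subset_ball hC.one_lt.le)
  have h3 := (hCO4 f _ (hCO1 f hfd)).2
  have h4 : Ser (fun n => c * ∑ q ∈ range (n + 1), EE τ κ b q * Gs (n - q))
      (fun z => z * deriv f z) := by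
    intro z hz
    have h5 := (h2 z hz).mul_left c
    have h6 : (fun n : ℕ => (c * ∑ q ∈ range (n + 1), EE τ κ b q * Gs (n - q)) * z ^ n) =
        fun n : ℕ => c * ((∑ q ∈ range (n + 1), EE τ κ b q * Gs (n - q)) * z ^ n) := by
      funext n
      ring
    show HasSum (fun n : ℕ => (c * ∑ q ∈ range (n + 1), EE τ κ b q * Gs (n - q)) * z ^ n)
      (z * deriv f z)
    rw [h6, hf z hz]
    have h7 : c * ((z * ∏ l ∈ univ.erase l₀, ((z - b₀ l) * (1 - (starRingEnd ℂ) (b₀ l) * z))) *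
        (G z * Q z)) = c * (((z * ∏ l ∈ univ.erase l₀, ((z - b₀ l) *
          (1 - (starRingEnd ℂ) (b₀ l) * z))) * Q z) * G z) := by ring
    rw [h7]
    exact h5
  have h5 := hCO2 _ _ _ h3 h4
  intro n
  exact congrFun h5 n

end Pool.Agent.GD
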