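import Pool.Agent.helper97.GD.Spec

/-!
# Project GD (MP_37e5fa_nt), row GLO: low digits
-/

set_option autoImplicit false

open Filter FirstOrder FirstOrder.Language

namespace Pool.Agent.GD

open Pool.Agent.UnivT

theorem GLO_shift (f : ℤ) (l i : ℕ) : f.testBit (l + i) = (f / 2 ^ l).testBit i := by
  have h2 : (2 : ℤ) ^ l = ((2 ^ l : ℕ) : ℤ) := by push_cast; rfl
  have hpos : 0 < 2 ^ l := Nat.two_pow_pos l
  rw [h2]
  cases f with
  | ofNat m =>
    have h1 : (Int.ofNat m) / ((2 ^ l : ℕ) : ℤ) = Int.ofNat (m / 2 ^ l) := rfl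
    rw [h1]
    change Nat.testBit m (l + i) = Nat.testBit (m / 2 ^ l) i
    rw [Nat.testBit_div_two_pow, add_comm]
  | negSucc m =>
    have h1 : (Int.negSucc m) / ((2 ^ l : ℕ) : ℤ) = Int.negSucc (m / 2 ^ l) := by
      rw [Int.negSucc_ediv _ (by exact_mod_cast hpos)]
      rw [Int.negSucc_eq]
      rfl
    rw [h1]
    change (!Nat.testBit m (l + i)) = !Nat.testBit (m / 2 ^ l) i
    rw [Nat.testBit_div_two_pow, add_comm]

theorem GLO_dvd (M : ℕ) (k : ℕ) (l : List ((ℕ → ℤ) × (ℕ → ℤ))) (h : ∀ x ∈ l, (M : ℤ) ≤ x.2 k) :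
    (2 : ℤ) ^ M ∣ sv l k := by
  induction l with
  | nil => rw [sv_nil]; exact dvd_zero _
  | cons x l ih =>
    rw [sv_cons]
    refine dvd_add ?_ (ih fun y hy => h y (List.mem_cons_of_mem _ hy))
    refine Dvd.dvd.mul_left (pow_dvd_pow 2 ?_) _
    have := h x List.mem_cons_self
    omega

theorem GLO (hEPR : EPR_stmt) (hBTM : BTM_stmt) : GLO_stmt := by
  intro U N hN n D c l f hSt
  obtain ⟨hD, -, -, hf⟩ := hSt
  obtain ⟨C, b, hb, hDb⟩ := Nat.exists_eq_two_pow_mul_odd hD.ne'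
  refine ⟨C, fun ℓ hℓ => ?_⟩
  -- the constant
  have hτ : ∀ᶠ k in (U : Filter ℕ), ∃ a ∈ Set.Icc (-((D : ℤ) + 2)) ((D : ℤ) + 2),
      (c k - D * (f k % 2 ^ ℓ k)) / 2 ^ (ℓ k + C) = a := by
    filter_upwards [hℓ] with k hk
    refine ⟨_, ⟨?_, ?_⟩, rfl⟩
    · have hP : (0 : ℤ) < 2 ^ ℓ k := by positivity
      have hQ : (0 : ℤ) < 2 ^ (ℓ k + C) := by positivity
      have hPQ : (2 : ℤ) ^ ℓ k ≤ 2 ^ (ℓ k + C) := pow_le_pow_right₀ (by norm_num) (by omega)
      have h1 := Int.emod_nonneg (f k) hP.ne'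
      have h2 := Int.emod_lt_of_pos (f k) hP
      rw [Int.le_ediv_iff_mul_le hQ]
      have h3 := (abs_lt.1 hk).1
      have hD' : (0 : ℤ) < D := by exact_mod_cast hD
      nlinarith
    · have hP : (0 : ℤ) < 2 ^ ℓ k := by positivity
      have hQ : (0 : ℤ) < 2 ^ (ℓ k + C) := by positivity
      have hPQ : (2 : ℤ) ^ ℓ k ≤ 2 ^ (ℓ k + C) := pow_le_pow_right₀ (by norm_num) (by omega)
      have h1 := Int.emod_nonneg (f k) hP.ne'
      have h3 := (abs_lt.1 hk).2
      have hD' : (0 : ℤ) < D := by exact_mod_cast hD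
      have h4 : (c k - D * (f k % 2 ^ ℓ k)) / 2 ^ (ℓ k + C) ≤ 1 := by
        apply Int.ediv_le_of_le_mul hQ
        nlinarith
      linarith
  rw [Ultrafilter.eventually_exists_mem_iff (Set.finite_Icc _ _)] at hτ
  obtain ⟨τ, -, hτ⟩ := hτ
  obtain ⟨s, hs, hsL⟩ := hEPR τ b (Nat.odd_iff.1 hb)
  refine ⟨s, hs, fun E hE => ?_⟩
  have hE' : ∀ᶠ k in (U : Filter ℕ), ∀ x ∈ l, E k + C ≤ x.2 k := by
    induction l with
    | nil => exact Eventually.of_forall fun k x hx => by simp at hx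
    | cons x l ih =>
      filter_upwards [hE x List.mem_cons_self, eventually_of_mem univ_mem fun _ _ => trivial,
        (show ∀ᶠ k in (U : Filter ℕ), ∀ y ∈ l, E k + C ≤ y.2 k from by
          clear ih hf hτ
          induction l with
          | nil => exact Eventually.of_forall fun k x hx => by simp at hx
          | cons y l ih =>
            have h1 := hE y (List.mem_cons_of_mem _ List.mem_cons_self)
            have h2 := ih (fun z hz => by
              rcases List.mem_cons.1 hz with rfl | hz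
              · exact hE _ List.mem_cons_self
              · exact hE _ (List.mem_cons_of_mem _ (List.mem_cons_of_mem _ hz)))
            filter_upwards [h1, h2] with k h1 h2 z hz
            rcases List.mem_cons.1 hz with rfl | hz
            · exact h1
            · exact h2 z hz)] with k h1 _ h2 y hy
      rcases List.mem_cons.1 hy with rfl | hy
      · exact h1
      · exact h2 y hy
  filter_upwards [hf, hτ, hE'] with k hf hτ hE i hi
  have hP : (0 : ℤ) < 2 ^ ℓ k := by positivity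
  obtain ⟨L, hL⟩ : ∃ L : ℕ, E k = (ℓ k : ℤ) + L := ⟨(E k - ℓ k).toNat, by omega⟩
  have hiL : i < L := by omega
  have h1 : (2 : ℤ) ^ (ℓ k + L + C) ∣ sv l k := by
    apply GLO_dvd
    intro x hx
    have := hE x hx
    push_cast
    omega
  have h2 : (2 : ℤ) ^ ℓ k * (f k / 2 ^ ℓ k) + f k % 2 ^ ℓ k = f k := Int.mul_ediv_add_emod _ _
  obtain ⟨w, hw⟩ := h1
  have hDb' : (D : ℤ) = 2 ^ C * b := by exact_mod_cast hDb
  have h3 : c k - D * (f k % 2 ^ ℓ k) = 2 ^ (ℓ k + C) * (b * (f k / 2 ^ ℓ k) - 2 ^ L * w) := by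
    have e1 : c k = D * f k - sv l k := by linarith
    have e2 : D * f k = D * (2 ^ ℓ k * (f k / 2 ^ ℓ k)) + D * (f k % 2 ^ ℓ k) := by
      rw [← mul_add, h2]
    rw [e1, hw, e2, hDb']
    ring
  have h4 : b * (f k / 2 ^ ℓ k) - 2 ^ L * w = τ := by
    rw [← hτ, h3, Int.mul_ediv_cancel_left _ (by positivity)]
  obtain ⟨t, ht⟩ := hsL L
  have h5 : (2 : ℤ) ^ L ∣ (b : ℤ) * (f k / 2 ^ ℓ k - val s L) := by
    refine ⟨t + w, ?_⟩
    have : (b : ℤ) * (f k / 2 ^ ℓ k) = τ + 2 ^ L * w := by linarith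
    rw [mul_sub, this, ht]
    ring
  have h6 : IsCoprime ((2 : ℤ) ^ L) (b : ℤ) := by
    apply IsCoprime.pow_left
    rw [Int.isCoprime_iff_gcd_eq_one]
    have : Nat.Coprime 2 b := Nat.coprime_two_left.2 hb
    exact this
  have h7 := h6.dvd_of_dvd_mul_left h5
  rw [GLO_shift]
  exact hBTM _ s L h7 i hiL

end Pool.Agent.GD
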